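import Pool.Agent.Results.MP_8e0b0b_nt.CubicTwistsCriterion
import Pool.Agent.T2h16.TQ.Main

/-!
# An algorithm that finds `C_A(ℚ)` for an exactly determined positive proportion of the prime twists of
# EVERY member of a class

`C_A : X³ + Y³ = A Z³`. Let `D` be ANY cube-free number prime to `3` which is divisible by exactly one
prime that is `2` modulo `3`, and by any number `n` of primes that are `1` modulo `3`. There is no
condition on the rank of `C_D(ℚ)` or on cubic residue symbols. Twist by one more prime `l = 1` modulo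
`3`, in both ways (`e = 1`, `2`), and multiply by the cube of any `m`: `A = D l ^ e m ³`, where
`D l ^ e` is not `± 1` modulo `9` (this allows two of the three classes of `l` modulo `9`).

There is one algorithm `g`, halting on all numbers, such that

* if `g |A| = true` then all the rational points of `C_A` are known: there are none besides the point at
  infinity, or `A = 2 m³` and `(m, m)` is the only other one (then `r(A) = 1`, otherwise `r(A) = 0`);
* for every `D` as above, every `m`, `e` and every allowed class modulo `9`, the relative density of the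
  primes `l` of the class with `g (D l ^ e m³) = true` exists, it is an explicit rational number `c(D)`
  depending on `D` only, and `c(D) ≥ (2 / 3) ^ (n + 1) > 0`. For all these `l` that do not divide `D`
  the point at infinity is the only rational point of `C_A` and of `C_{-A}`.

So for every `D` (for instance if the rank of `C_D(ℚ)` is large and no generators of `C_D(ℚ)` can be
computed) the algorithm determines generators for a positive proportion of the twists of `C_D` by one
prime. The earlier results were proportions on average over the whole class, and they say nothing about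
the twists of one given curve.

The criterion and its soundness are from the starting file `CubicTwistsCriterion`; the density of the
good prime twists is from `Pool/Agent/T2h16/TQ` (helper16, this run; Chebotarev's theorem for the cube
roots of the primary primes above `D`, cubic reciprocity, and a count of nonsingular perturbations).
-/

set_option autoImplicit false

open scoped Classical
open Filter Topology

namespace Pool.Agent.Results.MP_8e0b0b_nt.PrimeTwists

open Pool.Agent.R486.TC (Good cf_unique)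

/-- `D` is not zero, not divisible by `3` and by the cube of a prime, and exactly one prime `q = 2`
modulo `3` divides `D`. -/
def InClass (D : ℕ) : Prop := D ≠ 0 ∧ ¬ 3 ∣ D ∧ (∀ p : ℕ, p.Prime → ¬ p ^ 3 ∣ D) ∧
  ∃ q : ℕ, q.Prime ∧ q % 3 = 2 ∧ q ∣ D ∧ ∀ p : ℕ, p.Prime → p ∣ D → p ≠ q → p % 3 = 1

/-- the number of the prime factors of `D` that are `1` modulo `3` -/
def number (D : ℕ) : ℕ := (D.primeFactors.filter fun p => p % 3 = 1).card

/-- The point at infinity is the only rational point of `C_A`. -/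
def OnlyInfinity (A : ℤ) : Prop := ∀ X Y : ℚ, X ^ 3 + Y ^ 3 ≠ A

/-- the number of the primes `l ≤ X`, `l = r` modulo `9`, with the property `S` -/
noncomputable def count (r : ℕ) (S : ℕ → Prop) (X : ℕ) : ℕ :=
  Nat.card {l : ℕ // l.Prime ∧ l % 9 = r ∧ l ≤ X ∧ S l}

theorem bs_iff (D : ℕ) : InClass D ↔ Q283.TQ.Bs D := by
  unfold InClass Q283.TQ.Bs Pool.Agent.Y703.CT.Base
  tauto

theorem count_eq (r : ℕ) (S : ℕ → Prop) (hr : r = 1 ∨ r = 4 ∨ r = 7) (X : ℕ) :
    count r S X = T2h16.TQ.cnt (fun l => l % 9 = r ∧ S l) X := by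
  unfold count T2h16.TQ.cnt
  rw [← Nat.card_coe_set_eq]
  refine Nat.card_congr (Equiv.subtypeEquivRight fun l => ?_)
  rw [Set.mem_ofPred_eq]
  constructor
  · rintro ⟨a, b, c, d⟩
    refine ⟨a, ?_, ⟨b, d⟩, c⟩
    omega
  · rintro ⟨a, -, ⟨b, d⟩, c⟩
    exact ⟨a, b, c, d⟩

/-- the criterion for `D l ^ e m ^ 3` -/
theorem good_iff {D l e m : ℕ} (hD : InClass D) (he : e = 1 ∨ e = 2) (hm : m ≠ 0) (hl : l.Prime)
    (hl1 : l % 3 = 1) (hlD : ¬ l ∣ D) (h1 : D * l ^ e % 9 ≠ 1) (h8 : D * l ^ e % 9 ≠ 8) :
    Good (D * l ^ e * m ^ 3) ↔ Pool.Agent.Y703.CT.NoSplit (D * l ^ e) := by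
  have hB' := T2h16.TQ.bs_mul2 ((bs_iff D).1 hD) hl hl1 hlD (e := e) (by omega)
  have hI : InClass (D * l ^ e) := (bs_iff _).2 hB'
  have hC : Pool.Agent.R486.TC.Class (D * l ^ e) :=
    ⟨hI.1, hI.2.2.1, hI.2.1, h1, h8, hI.2.2.2⟩
  constructor
  · rintro ⟨D', n, h2, h3, h4, h5⟩
    obtain ⟨h6, -⟩ := cf_unique hI.1 h4.1 hm h3 hI.2.2.1 h4.2.1 h2
    rw [h6]
    exact h5
  · intro h
    exact ⟨D * l ^ e, m, rfl, hm, hC, h⟩

/-- a number divisible by a prime `l = 1` modulo `3` exactly once or twice, up to a cube, is not twice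
a cube -/
theorem not_two {D l e m : ℕ} (hD0 : D ≠ 0) (he : e = 1 ∨ e = 2) (hm : m ≠ 0) (hl : l.Prime)
    (hl1 : l % 3 = 1) (hlD : ¬ l ∣ D) (Y : ℚ) (h : ((D * l ^ e * m ^ 3 : ℕ) : ℚ) = 2 * Y ^ 3) :
    False := by
  have : Fact l.Prime := ⟨hl⟩
  have hY : Y ≠ 0 := by
    rintro rfl
    have h0 : ((D * l ^ e * m ^ 3 : ℕ) : ℚ) = 0 := by rw [h]; ring
    rw [Nat.cast_eq_zero] at h0
    have := hl.ne_zero
    simp_all
  have hv := congrArg (padicValRat l) h
  have hl2 : l ≠ 2 := by rintro rfl; omega
  rw [padicValRat.mul (by norm_num) (pow_ne_zero 3 hY), padicValRat.pow, padicValRat.of_nat,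
    padicValNat.mul (Nat.mul_ne_zero hD0 (pow_ne_zero e hl.ne_zero)) (pow_ne_zero 3 hm),
    padicValNat.mul hD0 (pow_ne_zero e hl.ne_zero), padicValNat.prime_pow,
    padicValNat.eq_zero_of_not_dvd hlD, padicValNat.pow] at hv
  have h2 : padicValRat l (2 : ℚ) = 0 := by
    have h3 : padicValRat l ((2 : ℕ) : ℚ) = 0 := by
      rw [padicValRat.of_nat, padicValNat.eq_zero_of_not_dvd]
      · rfl
      · intro h4
        exact hl2 ((Nat.prime_dvd_prime_iff_eq hl Nat.prime_two).1 h4)
    exact_mod_cast h3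
  rw [h2] at hv
  push_cast at hv
  omega

/-- **Main theorem.** -/
theorem result : ∃ g : ℕ → Bool, Computable g ∧
    -- what the algorithm certifies, for all numbers
    (∀ A : ℤ, g A.natAbs = true → A ≠ 0 ∧
      ∀ X Y : ℚ, X ^ 3 + Y ^ 3 = A → X = Y ∧ (A : ℚ) = 2 * X ^ 3) ∧
    ∀ D : ℕ, InClass D →
      -- the prime twists: no rational points besides the point at infinity
      (∀ e l m : ℕ, (e = 1 ∨ e = 2) → l.Prime → l % 3 = 1 → ¬ l ∣ D → m ≠ 0 →
        g (D * l ^ e * m ^ 3) = true →
          OnlyInfinity (D * l ^ e * m ^ 3 : ℕ) ∧ OnlyInfinity (-(D * l ^ e * m ^ 3 : ℕ))) ∧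
      -- the constant
      (2 / 3 : ℝ) ^ (number D + 1) ≤ T2h16.TQ.cD D ∧
      -- the density of the prime twists for which the algorithm succeeds
      ∀ e r m : ℕ, (e = 1 ∨ e = 2) → (r = 1 ∨ r = 4 ∨ r = 7) → m ≠ 0 →
        D * r ^ e % 9 ≠ 1 → D * r ^ e % 9 ≠ 8 →
        Tendsto (fun X : ℕ => (count r (fun l => g (D * l ^ e * m ^ 3) = true) X : ℝ) /
          (count r (fun _ => True) X : ℝ)) atTop (𝓝 (T2h16.TQ.cD D)) := by
  obtain ⟨hdec, hcomp⟩ := Pool.Agent.R486.TC.good_computable
  have hg : ∀ A, decide (Good A) = true ↔ Good A := fun A => decide_eq_true_iff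
  have hsound : ∀ A : ℤ, Good A.natAbs → A ≠ 0 ∧
      ∀ X Y : ℚ, X ^ 3 + Y ^ 3 = A → X = Y ∧ (A : ℚ) = 2 * X ^ 3 := by
    intro A h
    refine ⟨?_, fun X Y hXY => ?_⟩
    · rintro rfl
      obtain ⟨D', n, h2, h3, h4, h5⟩ := h
      have h6 : D' * n ^ 3 ≠ 0 := Nat.mul_ne_zero h4.1 (pow_ne_zero 3 h3)
      exact h6 h2.symm
    · have h1 := CubicTwistsCriterion.points h hXY
      refine ⟨h1, ?_⟩
      rw [← hXY, ← h1]
      ring
  refine ⟨fun A => decide (Good A), hcomp, fun A h => hsound A ((hg _).1 h), fun D hD => ⟨?_,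
    T2h16.TQ.cD_low ((bs_iff D).1 hD), ?_⟩⟩
  · intro e l m he hl hl1 hlD hm h
    have h0 := (hg _).1 h
    constructor
    · intro X Y hXY
      have h1 := (hsound ((D * l ^ e * m ^ 3 : ℕ) : ℤ) (by rw [Int.natAbs_natCast]; exact h0)).2
        X Y hXY
      refine not_two (m := m) hD.1 he hm hl hl1 hlD X ?_
      rw [← h1.2]
      norm_cast
    · intro X Y hXY
      have h1 := (hsound (-((D * l ^ e * m ^ 3 : ℕ) : ℤ)) (by
        rw [Int.natAbs_neg, Int.natAbs_natCast]; exact h0)).2 X Y hXY
      refine not_two (m := m) hD.1 he hm hl hl1 hlD (-X) ?_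
      have h2 := h1.2
      push_cast at h2 ⊢
      linear_combination (-1 : ℚ) * h2
  · intro e r m he hr hm h1 h8
    have hmod : ∀ l : ℕ, l % 9 = r → D * l ^ e % 9 = D * r ^ e % 9 := by
      rintro l rfl
      exact (Nat.ModEq.mul_left D ((Nat.mod_modEq l 9).symm.pow e))
    have h := T2h16.TQ.main ((bs_iff D).1 hD) he hr
      (fun l => l % 9 = r ∧ decide (Good (D * l ^ e * m ^ 3)) = true) (by
        intro l hl hl1 hlD
        refine and_congr_right fun hlr => ?_
        rw [hg]
        exact good_iff hD he hm hl hl1 hlD (by rw [hmod l hlr]; exact h1)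
          (by rw [hmod l hlr]; exact h8))
    refine h.congr fun X => ?_
    rw [count_eq r _ hr, count_eq r _ hr]
    simp only [and_true]

end Pool.Agent.Results.MP_8e0b0b_nt.PrimeTwists
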